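import Pool.Agent.Q279.SD.Mat

/-!
# Vanishing of the determinants `{42, -7}_n` and `{21, 112}_n`
-/

set_option autoImplicit false

namespace Pool.Agent.Results.MP_3ec6ae_nt.Vanishing

/-- `{c, d}_n`: the determinant of the matrix with entries the Jacobi symbols
`((j² + c j k + d k²) / n)`, `j, k ∈ {2, ..., n - 2}` (rows and columns are numbered from `0`, so
that the entry at `(i, l)` belongs to `j = i + 2`, `k = l + 2`). -/
noncomputable def braceDet (c d : ℤ) (n : ℕ) : ℤ :=
  Matrix.det (Matrix.of fun i l : Fin (n - 3) =>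
    jacobiSym (((i : ℤ) + 2) ^ 2 + c * ((i : ℤ) + 2) * ((l : ℤ) + 2) + d * ((l : ℤ) + 2) ^ 2) n)

/-- Q1 is answered affirmatively: for every positive integer `n ≡ 1 (mod 4)` with `(n / 7) = -1`
both `{42, -7}_n = 0` and `{21, 112}_n = 0`. -/
theorem result (n : ℕ) (hn : n % 4 = 1) (h7 : jacobiSym n 7 = -1) :
    braceDet 42 (-7) n = 0 ∧ braceDet 21 112 n = 0 := by
  have hne : ∀ (p : ℕ) [Fact p.Prime] (q : ℕ), q.Prime → p ≠ q → ((q : ℕ) : ZMod p) ≠ 0 := by
    intro p hp q hq hpq h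
    rw [ZMod.natCast_eq_zero_iff] at h
    exact hpq ((Nat.prime_dvd_prime_iff_eq hp.out hq).1 h)
  refine ⟨Q279.SD.det_zero (c := 42) (d := -7) ?_ ?_ hn h7,
    Q279.SD.det_zero (c := 21) (d := 112) ?_ ?_ hn h7⟩
  · intro p hp hp2 hp7 h
    push_cast
    exact Q279.SD.S_zero' p hp2 hp7 h
  · intro p hp hp4 hp7 h
    push_cast
    refine ⟨h, ?_⟩
    have h2 := hne p 2 Nat.prime_two (by rintro rfl; norm_num at hp4)
    have h7' := hne p 7 (by norm_num) hp7
    rw [show (42 : ZMod p) ^ 2 - 4 * (-7) = 2 ^ 8 * 7 by ring]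
    exact mul_ne_zero (pow_ne_zero _ (by exact_mod_cast h2)) (by exact_mod_cast h7')
  · intro p hp hp2 hp7 h
    push_cast
    exact Q279.SD.S_zero p hp2 hp7 h
  · intro p hp hp4 hp7 h
    push_cast
    have h2 := hne p 2 Nat.prime_two (by rintro rfl; norm_num at hp4)
    have h7' := hne p 7 (by norm_num) hp7
    have h4 : (4 : ZMod p) ≠ 0 := by
      rw [show (4 : ZMod p) = 2 * 2 by norm_num]
      exact mul_ne_zero (by exact_mod_cast h2) (by exact_mod_cast h2)
    constructor
    · have hm1 : quadraticChar (ZMod p) (-1) = 1 := by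
        rw [quadraticChar_neg_one (Q279.SD.ringChar_ne p (by rintro rfl; norm_num at hp4)),
          ZMod.card, ZMod.χ₄_nat_one_mod_four hp4]
      rw [show (112 : ZMod p) = 4 ^ 2 * (-1 * -7) by ring, map_mul, quadraticChar_sq_one' h4,
        one_mul, map_mul, hm1, h, one_mul]
    · rw [show (21 : ZMod p) ^ 2 - 4 * 112 = -7 by ring]
      exact neg_ne_zero.2 (by exact_mod_cast h7')

end Pool.Agent.Results.MP_3ec6ae_nt.Vanishing
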